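import Pool.Agent.Helper54_LIR.FTB
import Pool.Agent.Helper54_BED.Next
import Pool.Agent.Helper55_BED.GCFinal
import Pool.Agent.Helper61_BED.Cov

/-!
# FLO: the low frequency part of the landscape function minus its linearization is nearly constant
-/

set_option autoImplicit false
set_option linter.unusedSectionVars false

open MeasureTheory ProbabilityTheory

open scoped ENNReal BigOperators NNReal

noncomputable section

namespace Pool.Agent.LE.IR.H27

open Pool.Agent.BED Pool.Agent.LE.IR Pool.Agent.LE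

variable {d M : ℕ} [NeZero M]

theorem card_tor : (Fintype.card (Tor d M) : ℝ) = (M : ℝ) ^ d := by
  rw [Fintype.card_fun, ZMod.card, Fintype.card_fin]
  push_cast
  rfl

theorem M_pos : (0 : ℝ) < (M : ℝ) ^ d :=
  pow_pos (by exact_mod_cast Nat.pos_of_ne_zero (NeZero.ne M)) _

theorem zero_mem_low (J : ℕ) : (0 : Tor d M) ∈ low d M J := by
  unfold low
  simp

theorem sum_dk (J : ℕ) : ∑ y : Tor d M, dk J y = 1 := by
  have h : ((∑ y : Tor d M, dk J y : ℝ) : ℂ) = 1 := by
    push_cast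
    simp only [H54.dk_eq]
    rw [← Finset.sum_div, Finset.sum_comm]
    simp only [H54.sum_ec]
    rw [Finset.sum_ite_eq' (low d M J) (0 : Tor d M) (fun _ => (M : ℂ) ^ d),
      if_pos (zero_mem_low J)]
    exact div_self H54.Mne
  exact_mod_cast h

theorem sum_dk_sub (J : ℕ) (x : Tor d M) : ∑ y : Tor d M, dk J (x - y) = 1 := by
  rw [← sum_dk (d := d) (M := M) J]
  exact Equiv.sum_comp (Equiv.subLeft x) (fun y => dk J y)

theorem sum_dk_sub' (J : ℕ) (y : Tor d M) : ∑ x : Tor d M, dk J (x - y) = 1 := by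
  rw [← sum_dk (d := d) (M := M) J]
  exact Equiv.sum_comp (Equiv.subRight y) (fun y => dk J y)

theorem lpf_sub (J : ℕ) (f g : Tor d M → ℝ) (x : Tor d M) :
    lpf J (fun y => f y - g y) x = lpf J f x - lpf J g x := by
  unfold lpf
  rw [← Finset.sum_sub_distrib]
  exact Finset.sum_congr rfl fun y _ => by ring

theorem lpf_const (J : ℕ) (w : ℝ) (x : Tor d M) : lpf J (fun _ => w) x = w := by
  unfold lpf
  rw [← Finset.sum_mul, sum_dk_sub, one_mul]

theorem lpf_tr (J : ℕ) (f : Tor d M → ℝ) (x : Tor d M) :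
    lpf J (fun y => f (x + y)) 0 = lpf J f x := by
  unfold lpf
  rw [← Equiv.sum_comp (Equiv.addLeft x) (fun y => dk J (x - y) * f y)]
  refine Finset.sum_congr rfl fun y _ => ?_
  have h : x - (x + y) = 0 - y := by abel
  simp only [Equiv.coe_addLeft, h]

theorem sum_lpf (J : ℕ) (f : Tor d M → ℝ) : ∑ x, lpf J f x = ∑ y, f y := by
  unfold lpf
  rw [Finset.sum_comm]
  refine Finset.sum_congr rfl fun y _ => ?_
  rw [← Finset.sum_mul, sum_dk_sub', one_mul]

theorem gv_sub (h : ℝ) (V W : Tor d M → ℝ) (x : Tor d M) :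
    gv h (fun u => V u - W u) x = gv h V x - gv h W x := by
  unfold gv
  rw [← Finset.sum_sub_distrib]
  exact Finset.sum_congr rfl fun y _ => by ring

theorem gv_tr (h : ℝ) (V : Tor d M → ℝ) (x y : Tor d M) : gv h (tr x V) y = gv h V (x + y) := by
  unfold gv
  rw [← Equiv.sum_comp (Equiv.addLeft x) (fun w => GM (2 * d + h) 0 (x + y) w * V w)]
  refine Finset.sum_congr rfl fun w _ => ?_
  have h1 := (Pool.Agent.BED.H61.cov d M (2 * d + h) 0 x).2.2.1 y w
  have h2 : tr x (0 : Tor d M → ℝ) = 0 := rfl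
  rw [h2] at h1
  rw [h1]
  rfl

theorem sum_shift (e : Tor d M) (f : Tor d M → ℝ) : ∑ x, f (x + e) = ∑ x, f x := by
  have h := Equiv.sum_comp (Equiv.addRight e) f
  simp only [Equiv.coe_addRight] at h
  exact h

theorem sum_gv {h : ℝ} (hh : 0 < h) (V : Tor d M → ℝ) : ∑ x, gv h V x = (∑ x, V x) / h := by
  rw [eq_div_iff hh.ne']
  have h1 : ∀ x, (2 * d + h) * gv h V x - ∑ i : Fin d, (gv h V (x + ev i) + gv h V (x - ev i)) =
      V x := fun x => H54.gv_eq hh V x
  have h2 : ∑ x, V x = ∑ x, ((2 * d + h) * gv h V x -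
      ∑ i : Fin d, (gv h V (x + ev i) + gv h V (x - ev i))) :=
    Finset.sum_congr rfl fun x _ => (h1 x).symm
  rw [h2, Finset.sum_sub_distrib, ← Finset.mul_sum, Finset.sum_comm]
  have h3 : ∀ i : Fin d, ∑ x, (gv h V (x + ev i) + gv h V (x - ev i)) = 2 * ∑ x, gv h V x := by
    intro i
    have h4 : ∑ x, gv h V (x + ev i) = ∑ x, gv h V x := sum_shift (ev i) (gv h V)
    have h5 : ∑ x, gv h V (x - ev i) = ∑ x, gv h V x := by
      have h6 := sum_shift (-ev i) (gv h V)
      simp only [← sub_eq_add_neg] at h6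
      exact h6
    rw [Finset.sum_add_distrib, two_mul, h4, h5]
  rw [Finset.sum_congr rfl fun i _ => h3 i, Finset.sum_const, Finset.card_univ, Fintype.card_fin,
    nsmul_eq_mul]
  ring

/-- the mean of the potential is small -/
theorem mean_small (v : ℝ≥0) {r : ℝ} (hr : 0 < r) :
    gau d M v {V | r * (M : ℝ) ^ d ≤ |∑ x, V x|} ≤
      ENNReal.ofReal (v / (r ^ 2 * (M : ℝ) ^ d)) := by
  have hM : (0 : ℝ) < (M : ℝ) ^ d := M_pos
  have hm : ∀ _i : Tor d M, MemLp (id : ℝ → ℝ) 2 (gaussianReal 0 v) := fun _ =>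
    memLp_id_gaussianReal 2
  have hv := variance_sum_pi (μ := fun _ : Tor d M => gaussianReal 0 v)
    (X := fun _ : Tor d M => (id : ℝ → ℝ)) hm
  have hmi : ∀ i : Tor d M, MemLp (fun V : Tor d M → ℝ => V i) 2
      (Measure.pi fun _ : Tor d M => gaussianReal 0 v) := by
    intro i
    exact (hm i).comp_measurePreserving
      (measurePreserving_eval (fun _ : Tor d M => gaussianReal 0 v) i)
  have hsum : MemLp (∑ i : Tor d M, fun V : Tor d M → ℝ => (id : ℝ → ℝ) (V i)) 2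
      (Measure.pi fun _ : Tor d M => gaussianReal 0 v) :=
    memLp_finsetSum' _ fun i _ => hmi i
  have hint : ∫ V, (∑ i : Tor d M, fun V : Tor d M → ℝ => (id : ℝ → ℝ) (V i)) V
      ∂(Measure.pi fun _ : Tor d M => gaussianReal 0 v) = 0 := by
    simp only [Finset.sum_apply, id]
    rw [integral_finsetSum _ fun i _ => (hmi i).integrable (by norm_num)]
    refine Finset.sum_eq_zero fun i _ => ?_
    have h1 := (measurePreserving_eval (fun _ : Tor d M => gaussianReal 0 v) i).map_eq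
    have h2 : ∫ V : Tor d M → ℝ, V i ∂(Measure.pi fun _ : Tor d M => gaussianReal 0 v) =
        ∫ x, x ∂((Measure.pi fun _ : Tor d M => gaussianReal 0 v).map (Function.eval i)) := by
      rw [integral_map (measurable_pi_apply i).aemeasurable (by fun_prop)]
    rw [h2, h1, integral_id_gaussianReal]
  have h := meas_ge_le_variance_div_sq hsum (c := r * (M : ℝ) ^ d) (by positivity)
  rw [hint, hv] at h
  simp only [variance_id_gaussianReal, Finset.sum_const, Finset.card_univ, nsmul_eq_mul,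
    card_tor, sub_zero, Finset.sum_apply, id] at h
  refine h.trans (ENNReal.ofReal_le_ofReal (le_of_eq ?_))
  field_simp

theorem om_tr (z μ : ℝ) (V : Tor d M → ℝ) (x y : Tor d M) :
    om z μ (tr x V) y = om z μ V (x + y) := by
  unfold om
  rw [(Pool.Agent.BED.H61.cov d M z V x).2.2.2.1 y]

theorem flatE_tr {ε z μ : ℝ} {V : Tor d M → ℝ} (x : Tor d M) (hV : FlatE ε z μ V) :
    FlatE ε z μ (tr x V) := by
  refine ⟨fun y => hV.1 (x + y), ?_, fun y => ?_⟩
  · exact (Pool.Agent.BED.H61.cov d M z V x).2.1.2 hV.2.1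
  · rw [(Pool.Agent.BED.H61.cov d M z V x).2.2.2.1 y]
    exact hV.2.2 (x + y)

/-- extension of the low frequency part to a Lipschitz function -/
theorem extension {Φ : (Tor d M → ℝ) → ℝ} {S : Set (Tor d M → ℝ)} {K : ℝ} (hK : 0 ≤ K)
    (h : ∀ V ∈ S, ∀ W ∈ S, |Φ V - Φ W| ≤ K * Real.sqrt (∑ u, (V u - W u) ^ 2)) :
    ∃ F : (Tor d M → ℝ) → ℝ,
      (∀ V W, |F V - F W| ≤ K * Real.sqrt (∑ u, (V u - W u) ^ 2)) ∧ ∀ V ∈ S, F V = Φ V := by
  obtain ⟨k, hk⟩ : ∃ k : ℝ≥0, (k : ℝ) = K := ⟨⟨K, hK⟩, rfl⟩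
  have hdist : ∀ u w : EuclideanSpace ℝ (Tor d M),
      dist u w = Real.sqrt (∑ i, (u.ofLp i - w.ofLp i) ^ 2) := by
    intro u w
    rw [EuclideanSpace.dist_eq]
    congr 1
    exact Finset.sum_congr rfl fun i _ => by rw [Real.dist_eq, sq_abs]
  have hL : LipschitzOnWith k (fun u : EuclideanSpace ℝ (Tor d M) => Φ u.ofLp)
      {u | u.ofLp ∈ S} := by
    refine LipschitzOnWith.of_dist_le_mul fun u hu w hw => ?_
    rw [hdist, hk, Real.dist_eq]
    exact h _ hu _ hw
  obtain ⟨g, hg1, hg2⟩ := hL.extend_real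
  refine ⟨fun V => g (WithLp.toLp 2 V), fun V W => ?_, fun V hV => ?_⟩
  · have h1 := hg1.dist_le_mul (WithLp.toLp 2 V) (WithLp.toLp 2 W)
    rw [hdist, hk, Real.dist_eq] at h1
    exact h1
  · exact (hg2 (x := WithLp.toLp 2 V) hV).symm

/-- FLO -/
theorem flo (lfl : LflStmt) : FloStmt := by
  intro d hd
  obtain ⟨C, hC, hL⟩ := lfl d hd
  refine ⟨5 * C ^ 2, by nlinarith, ?_⟩
  intro M J _ v z μ ε p r q hμ hε hε1 hv hp hr hrε hfl hq hq4 hmean
  have hM : (0 : ℝ) < (M : ℝ) ^ d := M_pos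
  have hv' : (0 : ℝ) < v := hv
  obtain ⟨N, hN⟩ : ∃ N : ℝ, N = (low d M J).card / (M : ℝ) ^ d := ⟨_, rfl⟩
  have hlow : (0 : ℝ) < (low d M J).card := by
    exact_mod_cast Finset.card_pos.2 ⟨0, zero_mem_low J⟩
  have hN0 : 0 < N := by rw [hN]; positivity
  rw [← hN] at hq
  have hC0 : 0 < C := by linarith
  have hK : 0 < C * ε * μ * Real.sqrt N := by
    have := Real.sqrt_pos.2 hN0
    positivity
  obtain ⟨Φ, hΦ⟩ : ∃ Φ : (Tor d M → ℝ) → ℝ,
      ∀ V, Φ V = lpf J (fun y => om z μ V y - gv (1 / μ) V y) 0 := ⟨_, fun _ => rfl⟩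
  have hlip : ∀ V ∈ {V : Tor d M → ℝ | FlatE ε z μ V}, ∀ W ∈ {V : Tor d M → ℝ | FlatE ε z μ V},
      |Φ V - Φ W| ≤ C * ε * μ * Real.sqrt N * Real.sqrt (∑ u, (V u - W u) ^ 2) := by
    intro V hV W hW
    have h1 := hL M J z μ ε V W 0 hμ hε hε1 hV hW
    have h2 : Φ V - Φ W = lpf J (fun y => om z μ V y - om z μ W y -
        gv (1 / μ) (fun u => V u - W u) y) 0 := by
      rw [hΦ, hΦ, ← lpf_sub]
      congr 1
      funext y
      rw [gv_sub]
      ring
    rw [h2, hN]
    exact h1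
  obtain ⟨F, hF1, hF2⟩ := extension hK.le hlip
  have hFtr : ∀ V : Tor d M → ℝ, FlatE ε z μ V → ∀ x,
      F (tr x V) = lpf J (fun y => om z μ V y - gv (1 / μ) V y) x := by
    intro V hV x
    rw [hF2 _ (flatE_tr x hV), hΦ]
    have h1 : (fun y => om z μ (tr x V) y - gv (1 / μ) (tr x V) y) =
        fun y => (fun u => om z μ V u - gv (1 / μ) V u) (x + y) := by
      funext y
      rw [om_tr, gv_tr]
    rw [h1]
    exact lpf_tr J (fun u => om z μ V u - gv (1 / μ) V u) x
  obtain ⟨w, hw⟩ : ∃ w : ℝ, w = ∫ y, F y ∂(Measure.pi fun _ : Tor d M => gaussianReal 0 v) :=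
    ⟨_, rfl⟩
  have hcont := continuous_of_lip hK.le hF1
  have hbad : gau d M v ({V : Tor d M → ℝ | ¬ FlatE ε z μ V} ∪
      ⋃ x, {V : Tor d M → ℝ | r ≤ |F (tr x V) - w|}) ≤ ENNReal.ofReal q := by
    have h0 : q = p + (M : ℝ) ^ d *
        (2 * Real.exp (-(r ^ 2 / (5 * C ^ 2 * v * ε ^ 2 * μ ^ 2 * N)))) := by
      rw [hq]; ring
    rw [h0]
    refine gau_union hp (by positivity) hfl fun x => ?_
    have h1 := Pool.Agent.BED.H55.gc (Tor d M) v F _ hK hF1 r hr.le
    rw [← hw] at h1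
    have hmeas : MeasurableSet {V : Tor d M → ℝ | r ≤ |F V - w|} :=
      measurableSet_le measurable_const ((hcont.measurable.sub_const _).abs)
    have h3 := (Pool.Agent.BED.H61.cov d M z 0 x).2.2.2.2.2 v
    have h2 : gau d M v {V : Tor d M → ℝ | r ≤ |F (tr x V) - w|} =
        gau d M v {V : Tor d M → ℝ | r ≤ |F V - w|} :=
      h3.measure_preimage hmeas.nullMeasurableSet
    rw [h2]
    refine h1.trans (ENNReal.ofReal_le_ofReal (le_of_eq ?_))
    have h4 : 5 * (C * ε * μ * Real.sqrt N) ^ 2 * (v : ℝ) =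
        5 * C ^ 2 * v * ε ^ 2 * μ ^ 2 * N := by
      rw [mul_pow, Real.sq_sqrt hN0.le]
      ring
    rw [h4, neg_div]
  have hgood : ∀ V : Tor d M → ℝ, V ∉ ({V : Tor d M → ℝ | ¬ FlatE ε z μ V} ∪
      ⋃ x, {V : Tor d M → ℝ | r ≤ |F (tr x V) - w|}) → FlatE ε z μ V ∧
        ∀ x, |lpf J (fun y => om z μ V y - gv (1 / μ) V y) x - w| < r := by
    intro V hV
    rw [Set.mem_union, not_or] at hV
    obtain ⟨h1, h2⟩ := hV
    have h1' : FlatE ε z μ V := by
      by_contra h
      exact h1 h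
    refine ⟨h1', fun x => ?_⟩
    by_contra h
    refine h2 (Set.mem_iUnion.2 ⟨x, ?_⟩)
    rw [Set.mem_ofPred_eq, hFtr V h1' x]
    exact not_lt.1 h
  refine ⟨w, ?_, ?_⟩
  · have hms := mean_small (d := d) (M := M) v (r := ε / μ) (by positivity)
    have hlt : (v : ℝ) / ((ε / μ) ^ 2 * (M : ℝ) ^ d) < 1 / 4 := by
      rw [div_lt_iff₀ (by positivity)]
      have h1 : 1 / 4 * ((ε / μ) ^ 2 * (M : ℝ) ^ d) = ε ^ 2 * (M : ℝ) ^ d / (4 * μ ^ 2) := by
        field_simp
      rw [h1, lt_div_iff₀ (by positivity)]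
      linarith
    obtain ⟨V, hV1, hV2⟩ : ∃ V : Tor d M → ℝ,
        V ∉ ({V : Tor d M → ℝ | ¬ FlatE ε z μ V} ∪
          ⋃ x, {V : Tor d M → ℝ | r ≤ |F (tr x V) - w|}) ∧
        |∑ x, V x| < ε / μ * (M : ℝ) ^ d := by
      by_contra hcon
      push Not at hcon
      have h1 : (Set.univ : Set (Tor d M → ℝ)) ⊆
          ({V : Tor d M → ℝ | ¬ FlatE ε z μ V} ∪
            ⋃ x, {V : Tor d M → ℝ | r ≤ |F (tr x V) - w|}) ∪
          {V | ε / μ * (M : ℝ) ^ d ≤ |∑ x, V x|} := by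
        intro V _
        by_cases h : V ∈ ({V : Tor d M → ℝ | ¬ FlatE ε z μ V} ∪
            ⋃ x, {V : Tor d M → ℝ | r ≤ |F (tr x V) - w|})
        · exact Or.inl h
        · exact Or.inr (hcon V h)
      have := gau_isProb (d := d) (M := M) v
      have h2 : (1 : ℝ≥0∞) ≤ ENNReal.ofReal (1 / 4) + ENNReal.ofReal (1 / 4) := by
        calc (1 : ℝ≥0∞) = gau d M v Set.univ := measure_univ.symm
          _ ≤ _ := measure_mono h1
          _ ≤ _ := measure_union_le _ _
          _ ≤ _ := add_le_add (hbad.trans (ENNReal.ofReal_le_ofReal hq4))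
            (hms.trans (ENNReal.ofReal_le_ofReal hlt.le))
      rw [← ENNReal.ofReal_add (by norm_num) (by norm_num), ← ENNReal.ofReal_one,
        ENNReal.ofReal_le_ofReal_iff (by norm_num)] at h2
      norm_num at h2
    obtain ⟨hF, hg⟩ := hgood V hV1
    obtain ⟨A, hA⟩ : ∃ A : ℝ, A = ∑ x, om z μ V x := ⟨_, rfl⟩
    obtain ⟨B, hB⟩ : ∃ B : ℝ, B = ∑ x, V x := ⟨_, rfl⟩
    rw [← hB] at hV2
    have hsum : ∑ x, lpf J (fun y => om z μ V y - gv (1 / μ) V y) x = A - B * μ := by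
      rw [sum_lpf, Finset.sum_sub_distrib, sum_gv (by positivity), ← hA, ← hB]
      field_simp
    have h1 : |A - (M : ℝ) ^ d| ≤ ε * (M : ℝ) ^ d := by
      have h2 : A - (M : ℝ) ^ d = ∑ x : Tor d M, (om z μ V x - 1) := by
        rw [Finset.sum_sub_distrib, ← hA, Finset.sum_const, Finset.card_univ, nsmul_eq_mul,
          card_tor, mul_one]
      rw [h2]
      refine (Finset.abs_sum_le_sum_abs _ _).trans ?_
      have h3 : ∀ x : Tor d M, |om z μ V x - 1| ≤ ε := by
        intro x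
        have h4 := hF.2.2 x
        have h5 : om z μ V x - 1 = (DD z V x - μ) / μ := by
          unfold om
          field_simp
        rw [h5, abs_div, abs_of_pos hμ, div_le_iff₀ hμ]
        exact h4
      refine (Finset.sum_le_sum fun x _ => h3 x).trans (le_of_eq ?_)
      rw [Finset.sum_const, Finset.card_univ, nsmul_eq_mul, card_tor, mul_comm]
    have h2 : |(A - B * μ) - (M : ℝ) ^ d * w| ≤ r * (M : ℝ) ^ d := by
      have h3 : (A - B * μ) - (M : ℝ) ^ d * w =
          ∑ x, (lpf J (fun y => om z μ V y - gv (1 / μ) V y) x - w) := by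
        rw [Finset.sum_sub_distrib, hsum, Finset.sum_const, Finset.card_univ, nsmul_eq_mul,
          card_tor]
      rw [h3]
      refine (Finset.abs_sum_le_sum_abs _ _).trans ?_
      refine (Finset.sum_le_sum fun x _ => (hg x).le).trans (le_of_eq ?_)
      rw [Finset.sum_const, Finset.card_univ, nsmul_eq_mul, card_tor, mul_comm]
    have h3 : |B * μ| ≤ ε * (M : ℝ) ^ d := by
      rw [abs_mul, abs_of_pos hμ]
      have h4 := mul_le_mul_of_nonneg_right hV2.le hμ.le
      have h5 : ε / μ * (M : ℝ) ^ d * μ = ε * (M : ℝ) ^ d := by field_simp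
      rw [h5] at h4
      exact h4
    have h4 : (M : ℝ) ^ d * |w - 1| ≤ (M : ℝ) ^ d * (3 * ε) := by
      rw [← abs_of_pos hM, ← abs_mul, abs_of_pos hM]
      have h5 : (M : ℝ) ^ d * (w - 1) = (A - (M : ℝ) ^ d) - B * μ -
          ((A - B * μ) - (M : ℝ) ^ d * w) := by ring
      rw [h5]
      have h6 := abs_sub (A - (M : ℝ) ^ d - B * μ) ((A - B * μ) - (M : ℝ) ^ d * w)
      have h7 := abs_sub (A - (M : ℝ) ^ d) (B * μ)
      have h8 := mul_le_mul_of_nonneg_right hrε hM.le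
      linarith
    exact le_of_mul_le_mul_left h4 hM
  · refine (measure_mono ?_).trans hbad
    intro V hV
    by_contra hcon
    apply hV
    obtain ⟨-, hg⟩ := hgood V hcon
    intro x
    have h1 : (fun y => om z μ V y - w - gv (1 / μ) V y) =
        fun y => (fun u => om z μ V u - gv (1 / μ) V u) y - (fun _ => w) y := by
      funext y
      simp only []
      ring
    rw [h1, lpf_sub, lpf_const]
    exact (hg x).le

end Pool.Agent.LE.IR.H27
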